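import Pool.Agent.Q221.Gnp.PathCover
import Mathlib.Analysis.SpecialFunctions.Log.Basic
import Mathlib.Analysis.SpecialFunctions.Pow.Real

/-!
# Edge deletions and the path cover number of `G(n,p)`

For every fixed `k ≥ 2` the identity `f_k(G) = k (δ(G) - 1)` fails with high probability.
-/

set_option autoImplicit false

namespace Pool.Agent.Results.MP_e6ec33_pr.IdentityFails

open Filter Topology Finset
open scoped Classical

/-- `L` lists vertex-disjoint paths of `H` (each path is given as the nonempty list of its vertices,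
consecutive vertices being adjacent) which together cover every vertex exactly once. -/
def IsPathCover {V : Type} (H : SimpleGraph V) (L : List (List V)) : Prop :=
  (∀ P ∈ L, P ≠ [] ∧ P.IsChain H.Adj) ∧ L.flatten.Nodup ∧ ∀ v, v ∈ L.flatten

/-- The path cover number `μ(H)`: the least number of vertex-disjoint paths covering all vertices. -/
noncomputable def mu {V : Type} (H : SimpleGraph V) : ℕ :=
  sInf {m | ∃ L, IsPathCover H L ∧ L.length = m}

/-- The sizes of the edge sets `F ⊆ E(G)` with `μ(G - F) = k`; its least element is `f_k(G)`. -/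
def delSizes {V : Type} (G : SimpleGraph V) (k : ℕ) : Set ℕ :=
  {m | ∃ F : Set (Sym2 V), F ⊆ G.edgeSet ∧ F.ncard = m ∧ mu (G.deleteEdges F) = k}

/-- The asked identity for the graph `G`: `f_k(G)` exists and equals `k (δ(G) - 1)`. -/
def Identity {V : Type} [Fintype V] (k : ℕ) (G : SimpleGraph V) : Prop :=
  ∃ m : ℕ, IsLeast (delSizes G k) m ∧ (m : ℤ) = k * ((G.minDegree : ℤ) - 1)

/-- The probability that the binomial random graph `G(n,p)` has the property `P`. -/
noncomputable def gnp (n : ℕ) (p : ℝ) (P : SimpleGraph (Fin n) → Prop) : ℝ :=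
  ∑ G : SimpleGraph (Fin n),
    if P G then p ^ G.edgeSet.ncard * (1 - p) ^ (n.choose 2 - G.edgeSet.ncard) else 0

theorem least_le' {V : Type} [Fintype V] (G : SimpleGraph V) (k : ℕ) (hk : 1 ≤ k)
    (hkn : k ≤ Fintype.card V) (S : Finset V) (hS : S.card = k - 1) (m : ℕ)
    (hm : IsLeast (delSizes G k) m) : m ≤ ∑ v ∈ S, G.degree v :=
  Pool.Agent.Q221.PathCover.least_le G k hk hkn S hS m hm

/-- deterministic consequence -/
theorem not_identity {n : ℕ} (k : ℕ) (hk : 2 ≤ k) (hkn : k ≤ n) (G : SimpleGraph (Fin n)) (μ0 : ℝ)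
    (hμ : 2 * k ≤ μ0)
    (hdeg : ∀ v, (1 - 1 / (4 * (k : ℝ))) * μ0 < G.degree v ∧
      (G.degree v : ℝ) < (1 + 1 / (4 * (k : ℝ))) * μ0) : ¬ Identity k G := by
  rintro ⟨m, hm, heq⟩
  have hk0 : (2 : ℝ) ≤ k := by exact_mod_cast hk
  obtain ⟨S, hS⟩ : ∃ S : Finset (Fin n), S.card = k - 1 := by
    obtain ⟨S, -, hS⟩ := Finset.exists_subset_card_eq (s := (univ : Finset (Fin n)))
      (n := k - 1) (by simp; omega)
    exact ⟨S, hS⟩
  have h1 := least_le' G k (by omega) (by simpa using hkn) S hS m hm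
  have h2 : (m : ℝ) ≤ ((k : ℝ) - 1) * ((1 + 1 / (4 * (k : ℝ))) * μ0) := by
    have h3 : (m : ℝ) ≤ ∑ v ∈ S, (G.degree v : ℝ) := by exact_mod_cast h1
    refine h3.trans ?_
    refine (Finset.sum_le_card_nsmul S (fun v => (G.degree v : ℝ)) ((1 + 1 / (4 * (k : ℝ))) * μ0)
      (fun v _ => (hdeg v).2.le)).trans (le_of_eq ?_)
    rw [hS, nsmul_eq_mul, Nat.cast_sub (by omega), Nat.cast_one]
  have hne : Nonempty (Fin n) := ⟨⟨0, by omega⟩⟩
  obtain ⟨v, hv⟩ := G.exists_minimal_degree_vertex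
  have h4 : (1 - 1 / (4 * (k : ℝ))) * μ0 < (G.minDegree : ℝ) := by
    rw [hv]
    exact (hdeg v).1
  have h5 : (m : ℝ) = k * ((G.minDegree : ℝ) - 1) := by exact_mod_cast heq
  have h6 : (k : ℝ) * ((1 - 1 / (4 * (k : ℝ))) * μ0 - 1) < m := by
    rw [h5]
    apply mul_lt_mul_of_pos_left _ (by linarith)
    linarith
  have h7 : (k : ℝ) * ((1 - 1 / (4 * (k : ℝ))) * μ0 - 1) = k * μ0 - μ0 / 4 - k := by
    field_simp
  have h8 : ((k : ℝ) - 1) * ((1 + 1 / (4 * (k : ℝ))) * μ0) =
      k * μ0 - μ0 + μ0 / 4 - μ0 / (4 * k) := by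
    field_simp
    ring
  have h9 : 0 ≤ μ0 / (4 * k) := by
    apply div_nonneg <;> linarith
  rw [h7] at h6
  rw [h8] at h2
  linarith

/-- **Disproof of the identity for every fixed `k ≥ 2`.**
(1) For every graph `G` on `n ≥ k ≥ 1` vertices, `f_k(G)` is at most the sum of the degrees of any
`k - 1` vertices.  (2) For every `k ≥ 2` there is `C` such that for all `p = p(n)` with
`C log n ≤ n p ≤ n` the probability that `f_k(G(n,p)) = k (δ(G(n,p)) - 1)` tends to `0`.
(3) For `k = 2` the identity fails for every graph with `δ(G) ≥ 3`, for every `n` and `p`. -/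
theorem result :
    (∀ (n k : ℕ) (G : SimpleGraph (Fin n)) (S : Finset (Fin n)) (m : ℕ), 1 ≤ k → k ≤ n →
      S.card = k - 1 → IsLeast (delSizes G k) m → m ≤ ∑ v ∈ S, G.degree v) ∧
    (∀ k : ℕ, 2 ≤ k → ∃ C : ℝ, 0 < C ∧ ∀ p : ℕ → ℝ, (∀ n, 0 ≤ p n ∧ p n ≤ 1) →
      (∀ᶠ n : ℕ in atTop, C * Real.log n ≤ n * p n) →
      Tendsto (fun n => gnp n (p n) (Identity k)) atTop (𝓝 0)) ∧
    (∀ (n : ℕ) (G : SimpleGraph (Fin n)), 3 ≤ G.minDegree → ¬ Identity 2 G) := by
  refine ⟨fun n k G S m hk hkn hS hm => least_le' G k hk (by simpa using hkn) S hS m hm, ?_, ?_⟩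
  · intro k hk
    have hk0 : (2 : ℝ) ≤ k := by exact_mod_cast hk
    set ε : ℝ := 1 / (4 * (k : ℝ)) with hε
    have hε0 : 0 < ε := by positivity
    have hε1 : ε ≤ 1 := by
      rw [hε, div_le_one (by positivity)]
      linarith
    refine ⟨16 / ε ^ 2, by positivity, fun p hp hC => ?_⟩
    have hbound : ∀ᶠ n : ℕ in atTop, gnp n (p n) (Identity k) ≤ 2 * (1 / (n : ℝ)) := by
      have hlog : ∀ᶠ n : ℕ in atTop, (k : ℝ) ≤ Real.log n :=
        (Real.tendsto_log_atTop.comp tendsto_natCast_atTop_atTop).eventually_ge_atTop (k : ℝ)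
      filter_upwards [hC, hlog, eventually_ge_atTop (max 2 k)] with n hn hln hn2
      have hn2' : 2 ≤ n := le_trans (le_max_left _ _) hn2
      have hnk : k ≤ n := le_trans (le_max_right _ _) hn2
      have hnR : (2 : ℝ) ≤ n := by exact_mod_cast hn2'
      obtain ⟨hp0, hp1⟩ := hp n
      have hn1 : ((n - 1 : ℕ) : ℝ) = (n : ℝ) - 1 := by
        rw [Nat.cast_sub (by omega)]; simp
      set μ0 : ℝ := ((n - 1 : ℕ) : ℝ) * p n with hμ0
      have hμlow : 8 / ε ^ 2 * Real.log n ≤ μ0 := by
        have h1 : (n : ℝ) / 2 ≤ (n : ℝ) - 1 := by linarith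
        have h2 : (n : ℝ) / 2 * p n ≤ μ0 := by
          rw [hμ0, hn1]
          exact mul_le_mul_of_nonneg_right h1 hp0
        have h3 : 8 / ε ^ 2 * Real.log n = (16 / ε ^ 2 * Real.log n) / 2 := by ring
        rw [h3]
        linarith
      have hμk : 2 * (k : ℝ) ≤ μ0 := by
        refine le_trans ?_ hμlow
        have h1 : (1 : ℝ) ≤ 1 / ε ^ 2 := by
          rw [le_div_iff₀ (by positivity)]
          nlinarith
        have h2 : 8 / ε ^ 2 = 8 * (1 / ε ^ 2) := by ring
        rw [h2]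
        nlinarith
      have h1 := Pool.Agent.Q221.Gnp.gnp_degrees (n := n) hp0 hp1 hε0.le hε1
      rw [← hμ0] at h1
      have h2 : gnp n (p n) (Identity k) ≤ Pool.Agent.Q221.Gnp.gnp n (p n)
          (fun G => ¬ ∀ v, (1 - ε) * μ0 < G.degree v ∧ (G.degree v : ℝ) < (1 + ε) * μ0) := by
        refine Pool.Agent.Q221.Gnp.gnp_imp hp0 hp1 (P := Identity k) fun G hG hdeg => ?_
        exact not_identity k hk hnk G μ0 hμk hdeg hG
      rw [Pool.Agent.Q221.Gnp.gnp_not] at h2
      have h3 : 2 * (n : ℝ) * Real.exp (-(μ0 * ε ^ 2 / 4)) ≤ 2 * (1 / (n : ℝ)) := by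
        have h4 : 2 * Real.log n ≤ μ0 * ε ^ 2 / 4 := by
          have h5 : (8 / ε ^ 2 * Real.log n) * ε ^ 2 ≤ μ0 * ε ^ 2 :=
            mul_le_mul_of_nonneg_right hμlow (by positivity)
          have h6 : (8 / ε ^ 2 * Real.log n) * ε ^ 2 = 8 * Real.log n := by
            field_simp
          linarith
        have h7 : Real.exp (-(μ0 * ε ^ 2 / 4)) ≤ (1 / (n : ℝ)) ^ 2 := by
          have h8 : (1 / (n : ℝ)) ^ 2 = Real.exp (-(2 * Real.log n)) := by
            rw [Real.exp_neg, show 2 * Real.log (n : ℝ) = Real.log n + Real.log n by ring,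
              Real.exp_add, Real.exp_log (by linarith)]
            field_simp
          rw [h8]
          apply Real.exp_le_exp.2
          linarith
        calc 2 * (n : ℝ) * Real.exp (-(μ0 * ε ^ 2 / 4)) ≤ 2 * (n : ℝ) * (1 / (n : ℝ)) ^ 2 :=
              mul_le_mul_of_nonneg_left h7 (by positivity)
          _ = 2 * (1 / (n : ℝ)) := by
              field_simp
      linarith
    have hlim : Tendsto (fun n : ℕ => 2 * (1 / (n : ℝ))) atTop (𝓝 0) := by
      have := (tendsto_one_div_atTop_nhds_zero_nat (𝕜 := ℝ)).const_mul 2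
      simpa using this
    refine tendsto_of_tendsto_of_tendsto_of_le_of_le' tendsto_const_nhds hlim ?_ hbound
    filter_upwards with n
    exact Pool.Agent.Q221.Gnp.gnp_nonneg (hp n).1 (hp n).2 _
  · rintro n G hG ⟨m, hm, heq⟩
    have hn : 2 ≤ n := by
      by_contra hlt
      push Not at hlt
      have : G.minDegree ≤ 0 := by
        rcases Nat.eq_zero_or_pos n with h0 | h0
        · subst h0
          simp
        · have h1 : n = 1 := by omega
          subst h1
          have := G.minDegree_le_degree 0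
          have h2 := G.degree_lt_card_verts (0 : Fin 1)
          rw [Fintype.card_fin] at h2
          omega
      omega
    have hne : Nonempty (Fin n) := ⟨⟨0, by omega⟩⟩
    obtain ⟨v, hv⟩ := G.exists_minimal_degree_vertex
    have h1 := least_le' G 2 (by omega) (by simpa using hn) {v} (by simp) m hm
    rw [Finset.sum_singleton, ← hv] at h1
    push_cast at heq
    omega

end Pool.Agent.Results.MP_e6ec33_pr.IdentityFails
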